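import Pool.Agent.V5helper73.GC.Stm2

set_option autoImplicit false

/-! # Project GCH, job AREA2: the mean square of the derivative of a map of the class Sigma -/

namespace V5helper81.GC

open Complex MeasureTheory Set Filter Topology Metric
open Pool.Agent.W677.Mar Pool.Agent.Helper405.Area

/-- `G z = Y z / z` on the punctured disc -/
theorem area_one {Y : ℂ → ℂ} (hY : IsG0 Y) {a : ℕ → ℂ}
    (ha : ∀ z ∈ ball (0:ℂ) 1, HasSum (fun j => a j * z ^ j) (Y z)) {r : ℝ} (hr0 : 0 < r)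
    (hr1 : r < 1) : ∑' j : ℕ, ((j : ℝ) - 1) * ‖a j‖ ^ 2 * r ^ (2 * j) ≤ 0 := by
  have hd : DifferentiableOn ℂ (fun z => Y z / z) Dp := by
    intro z hz
    have h1 : DifferentiableWithinAt ℂ Y Dp z := (hY.diff z hz.1).mono diff_subset
    exact h1.div differentiableWithinAt_id hz.2
  have hp : Tendsto (fun z => Y z / z) (𝓝[≠] 0) (Bornology.cobounded ℂ) := by
    rw [← tendsto_norm_atTop_iff_cobounded]
    have h1 : Tendsto (fun z => ‖Y z‖) (𝓝[≠] 0) (𝓝 1) := by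
      have h2 : ContinuousAt Y 0 :=
        (hY.diff.continuousOn).continuousAt (isOpen_ball.mem_nhds (mem_ball_self one_pos))
      have h3 : Tendsto (fun z => ‖Y z‖) (𝓝 0) (𝓝 ‖Y 0‖) := h2.norm
      rw [hY.one, norm_one] at h3
      exact h3.mono_left nhdsWithin_le_nhds
    have h2 : Tendsto (fun z : ℂ => ‖z⁻¹‖) (𝓝[≠] 0) atTop :=
      tendsto_norm_cobounded_atTop.comp tendsto_inv₀_nhdsNE_zero
    have h3 := h1.pos_mul_atTop one_pos h2
    refine h3.congr fun z => ?_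
    rw [div_eq_mul_inv, norm_mul]
  have hF : ∀ z ∈ Dp, (fun w : ℂ => w) (Y z / z) * z ^ 1 = Y z := by
    intro z hz
    have hz0 : z ≠ 0 := hz.2
    simp only [pow_one]
    field_simp
  have h := area (V := fun w => w) (m := 1) hd hY.inj hp differentiable_id hY.diff hF ha hr0 hr1
  simpa using h

theorem le_geom {q : ℝ} (h0 : 0 ≤ q) (h1 : q < 1) (j : ℕ) :
    (j : ℝ) * q ^ (j + 1) ≤ 1 / (1 - q) := by
  have h2 : 0 < 1 - q := by linarith
  rw [le_div_iff₀ h2]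
  have h3 : ∀ n : ℕ, (n : ℝ) * q ^ (n + 1) * (1 - q) ≤ 1 - q ^ n := by
    intro n
    induction n with
    | zero => simp
    | succ n ih =>
      have h4 : 0 ≤ q ^ n := pow_nonneg h0 n
      have h5 : 0 ≤ q ^ (n + 1) := pow_nonneg h0 _
      have h6 : q ^ (n + 1) = q ^ n * q := pow_succ q n
      have h7 : q ^ (n + 1 + 1) = q ^ (n + 1) * q := pow_succ q (n + 1)
      push_cast
      have h8 : ((n : ℝ) + 1) * q ^ (n + 1 + 1) * (1 - q) =
          q * ((n : ℝ) * q ^ (n + 1) * (1 - q)) + q ^ (n + 1 + 1) * (1 - q) := by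
        rw [h7]; ring
      rw [h8]
      have h9 : q * ((n : ℝ) * q ^ (n + 1) * (1 - q)) ≤ q * (1 - q ^ n) :=
        mul_le_mul_of_nonneg_left ih h0
      have h10 : q ^ (n + 1 + 1) ≤ 1 := pow_le_one₀ h0 h1.le
      nlinarith
  have h4 := h3 j
  have h5 : 0 ≤ q ^ j := pow_nonneg h0 j
  linarith

/-- **AREA2** -/
theorem t_AREA2 : V5helper73.GC.S_AREA2 := by
  intro Y H S s hs0 hs1
  have hY := S.G
  set a : ℕ → ℂ := fun n => (n.factorial : ℂ)⁻¹ * iteratedDeriv n Y 0 with ha_def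
  have ha : ∀ z ∈ ball (0:ℂ) 1, HasSum (fun j => a j * z ^ j) (Y z) := by
    intro z hz
    have h1 := Complex.hasSum_taylorSeries_on_ball hY.diff hz
    refine h1.congr_fun ?_ |> fun h => h
    intro n
    simp only [ha_def, smul_eq_mul, sub_zero]
    ring
  have ha0 : ‖a 0‖ = 1 := by
    simp [ha_def, hY.one]
  have hs2 : s ^ 2 < 1 := by nlinarith
  have hK : 0 < 1 - s ^ 2 := by linarith
  -- partial sums of the area series
  have hpart : ∀ N : ℕ, ∑ j ∈ Finset.range (N + 1), ((j : ℝ) - 1) * ‖a j‖ ^ 2 ≤ 0 := by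
    intro N
    have h1 : ∀ r : ℝ, 0 < r → r < 1 →
        ∑ j ∈ Finset.range (N + 1), ((j : ℝ) - 1) * ‖a j‖ ^ 2 * r ^ (2 * j) ≤ 0 := by
      intro r hr0 hr1
      refine le_trans ?_ (area_one hY ha hr0 hr1)
      have hsum : Summable fun j : ℕ => ((j : ℝ) - 1) * ‖a j‖ ^ 2 * r ^ (2 * j) := by
        have h2 := parseval hr0.le (summable_of_hasSum ha hr0.le hr1)
          (summable_of_hasSum (hasSum_Q ha 1) hr0.le hr1)
          (fun z hz => ha z (by rw [mem_ball_zero_iff, hz]; exact hr1))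
          (fun z hz => hasSum_Q ha 1 z (by rw [mem_ball_zero_iff, hz]; exact hr1))
        have h3 : (fun j : ℕ => (starRingEnd ℂ) (a j) * (((j : ℂ) - (1 : ℕ)) * a j) *
            ((r ^ (2 * j) : ℝ) : ℂ))
            = fun j : ℕ => ((((j : ℝ) - 1) * ‖a j‖ ^ 2 * r ^ (2 * j) : ℝ) : ℂ) := by
          funext j
          have h3 : ((‖a j‖ ^ 2 : ℝ) : ℂ) = (starRingEnd ℂ) (a j) * a j := by
            rw [← Complex.normSq_eq_norm_sq, Complex.normSq_eq_conj_mul_self]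
          rw [ofReal_mul, ofReal_mul, h3]
          push_cast
          ring
        rw [h3] at h2
        exact Complex.summable_ofReal.1 h2.summable
      refine hsum.sum_le_tsum _ fun j hj => ?_
      have hj1 : N + 1 ≤ j := by
        simpa using hj
      have hj2 : (1 : ℝ) ≤ (j : ℝ) := by
        have : (1 : ℕ) ≤ j := by omega
        exact_mod_cast this
      have : 0 ≤ (j : ℝ) - 1 := by linarith
      positivity
    have h2 : Tendsto (fun r : ℝ => ∑ j ∈ Finset.range (N + 1),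
        ((j : ℝ) - 1) * ‖a j‖ ^ 2 * r ^ (2 * j)) (𝓝[<] 1)
        (𝓝 (∑ j ∈ Finset.range (N + 1), ((j : ℝ) - 1) * ‖a j‖ ^ 2 * (1 : ℝ) ^ (2 * j))) := by
      refine Tendsto.mono_left ?_ nhdsWithin_le_nhds
      exact (by fun_prop : Continuous fun r : ℝ => ∑ j ∈ Finset.range (N + 1),
        ((j : ℝ) - 1) * ‖a j‖ ^ 2 * r ^ (2 * j)).tendsto 1
    have h3 : ∑ j ∈ Finset.range (N + 1), ((j : ℝ) - 1) * ‖a j‖ ^ 2 * (1 : ℝ) ^ (2 * j) ≤ 0 := by
      refine le_of_tendsto h2 ?_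
      filter_upwards [Ioo_mem_nhdsLT (show (0:ℝ) < 1 by norm_num)] with r hr
      exact h1 r hr.1 hr.2
    simpa using h3
  -- Parseval
  have hQs := hasSum_Q ha 1
  have hP := parseval hs0.le (summable_of_hasSum hQs hs0.le hs1)
    (summable_of_hasSum hQs hs0.le hs1)
    (fun z hz => hQs z (by rw [mem_ball_zero_iff, hz]; exact hs1))
    (fun z hz => hQs z (by rw [mem_ball_zero_iff, hz]; exact hs1))
  have hint : ∀ θ : ℝ, (starRingEnd ℂ) (circleMap 0 s θ * deriv Y (circleMap 0 s θ) -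
      (1 : ℕ) * Y (circleMap 0 s θ)) * (circleMap 0 s θ * deriv Y (circleMap 0 s θ) -
      (1 : ℕ) * Y (circleMap 0 s θ)) =
      ((‖Complex.exp (H (circleMap 0 s θ))‖ ^ 2 : ℝ) : ℂ) := by
    intro θ
    have hz : circleMap 0 s θ ∈ ball (0 : ℂ) 1 := by
      rw [mem_ball_zero_iff]
      simpa [abs_of_pos hs0] using hs1
    have h1 := S.eq _ hz
    have h2 : circleMap 0 s θ * deriv Y (circleMap 0 s θ) - (1 : ℕ) * Y (circleMap 0 s θ) =
        -Complex.exp (H (circleMap 0 s θ)) := by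
      rw [h1]
      push_cast
      ring
    rw [h2, ← Complex.normSq_eq_conj_mul_self, Complex.normSq_eq_norm_sq, norm_neg]
  simp only [hint] at hP
  rw [intervalIntegral.integral_ofReal] at hP
  have hterm : ∀ j : ℕ, (starRingEnd ℂ) (((j : ℂ) - (1 : ℕ)) * a j) * (((j : ℂ) - (1 : ℕ)) * a j) *
      ((s ^ (2 * j) : ℝ) : ℂ) = ((((j : ℝ) - 1) ^ 2 * ‖a j‖ ^ 2 * s ^ (2 * j) : ℝ) : ℂ) := by
    intro j
    have h3 : ((‖a j‖ ^ 2 : ℝ) : ℂ) = (starRingEnd ℂ) (a j) * a j := by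
      rw [← Complex.normSq_eq_norm_sq, Complex.normSq_eq_conj_mul_self]
    rw [ofReal_mul, ofReal_mul, h3, map_mul, map_sub, Complex.conj_natCast, Complex.conj_natCast]
    push_cast
    ring
  simp only [hterm] at hP
  have hP2 : HasSum (fun j : ℕ => ((j : ℝ) - 1) ^ 2 * ‖a j‖ ^ 2 * s ^ (2 * j))
      ((1 / (2 * Real.pi)) * ∫ θ in (0:ℝ)..(2 * Real.pi),
        ‖Complex.exp (H (circleMap 0 s θ))‖ ^ 2) := by
    have h1 : (2 * (Real.pi : ℂ))⁻¹ * ((∫ θ in (0:ℝ)..(2 * Real.pi),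
        ‖Complex.exp (H (circleMap 0 s θ))‖ ^ 2 : ℝ) : ℂ) =
        (((1 / (2 * Real.pi)) * ∫ θ in (0:ℝ)..(2 * Real.pi),
        ‖Complex.exp (H (circleMap 0 s θ))‖ ^ 2 : ℝ) : ℂ) := by
      push_cast
      ring
    rw [h1] at hP
    exact Complex.hasSum_ofReal.1 hP
  -- the bound
  refine le_of_tendsto hP2.tendsto_sum_nat (eventually_atTop.2 ⟨1, fun N hN => ?_⟩)
  obtain ⟨M, rfl⟩ : ∃ M, N = M + 1 := ⟨N - 1, by omega⟩
  have hj : ∀ j ∈ Finset.range (M + 1), ((j : ℝ) - 1) ^ 2 * ‖a j‖ ^ 2 * s ^ (2 * j) ≤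
      1 / (1 - s ^ 2) * (((j : ℝ) - 1) * ‖a j‖ ^ 2) +
        (if j = 0 then 1 + 1 / (1 - s ^ 2) else 0) := by
    intro j _
    rcases Nat.eq_zero_or_pos j with h0 | h0
    · subst h0
      rw [if_pos rfl, ha0]
      norm_num
    · rw [if_neg h0.ne', add_zero]
      obtain ⟨i, rfl⟩ : ∃ i, j = i + 1 := ⟨j - 1, by omega⟩
      have h1 := le_geom (sq_nonneg s) hs2 i
      have h2 : s ^ (2 * (i + 1)) = (s ^ 2) ^ (i + 1) := pow_mul s 2 (i + 1)
      rw [h2]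
      push_cast
      have h3 : ((i : ℝ) + 1 - 1) ^ 2 * ‖a (i + 1)‖ ^ 2 * (s ^ 2) ^ (i + 1) =
          ((i : ℝ) * (s ^ 2) ^ (i + 1)) * ((i : ℝ) * ‖a (i + 1)‖ ^ 2) := by ring
      have h4 : ((i : ℝ) + 1 - 1) * ‖a (i + 1)‖ ^ 2 = (i : ℝ) * ‖a (i + 1)‖ ^ 2 := by ring
      rw [h3, h4]
      exact mul_le_mul_of_nonneg_right h1 (by positivity)
  refine (Finset.sum_le_sum hj).trans ?_
  rw [Finset.sum_add_distrib, ← Finset.mul_sum, Finset.sum_ite_eq']
  rw [if_pos (Finset.mem_range.2 (Nat.succ_pos M))]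
  have h1 : 1 / (1 - s ^ 2) * ∑ j ∈ Finset.range (M + 1), ((j : ℝ) - 1) * ‖a j‖ ^ 2 ≤ 0 :=
    mul_nonpos_of_nonneg_of_nonpos (by positivity) (hpart M)
  have h2 : (1 : ℝ) ≤ 1 / (1 - s ^ 2) := by
    rw [le_div_iff₀ hK]
    nlinarith [sq_nonneg s]
  have h3 : 2 / (1 - s ^ 2) = 1 / (1 - s ^ 2) + 1 / (1 - s ^ 2) := by ring
  rw [h3]
  linarith

end V5helper81.GC
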